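import Pool.Agent.HPR.Asm
import Pool.Agent.HPR.Ridge

set_option autoImplicit false

namespace Pool.Agent.Results.MP_725b61_nt.HalfPlanePeriods

open LRP HPR

theorem result :
    (∀ (n : ℕ) (v : ℂ), IsHPRPeriodOf n v ↔ ∃ a : QB, v = a * (Real.pi : ℂ) ^ n) ∧
    (∀ n : ℕ, ∃ S : Set (MvPolynomial (Fin (n + 1)) QB), HPR.Red (n + 1) S ∧
      RidgeFam n ⊆ (Prods S : Set (MvPolynomial (Fin (n + 1)) QB))) ∧
    Algebra.adjoin QB ({v : ℂ | ∃ n : ℕ, IsHPRPeriodOf n v} ∪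
      {v : ℂ | ∃ w : ℝ, v = (w : ℂ) ∧ (Pool.Agent.Helper23.PeriodDefs.IsRidgeIntegral w ∨
        Pool.Agent.Helper23.PeriodDefs.IsQuadricIntegral w ∨
        Pool.Agent.Helper23.PeriodDefs.IsEllipsoidIntegral w)}) =
      Algebra.adjoin QB {(Real.pi : ℂ)} ∧
    (Real.pi : ℂ)⁻¹ ∉ Algebra.adjoin QB {(Real.pi : ℂ)} :=
  asm_ridge ridge

end Pool.Agent.Results.MP_725b61_nt.HalfPlanePeriods
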