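import Pool.Agent.PWD.Text
import Pool.Agent.PWD.FinT
import Pool.Agent.PWD.VSF
import Pool.Agent.PCB.Main

/-!
# Periods, integrals over the whole space and volumes of sets given by quadratic inequalities

Everything is over `ℚ`, and `n ≥ 1`.  `V n` is the set of finite volumes of semialgebraic sets in `ℝⁿ`,
`W n` the set of absolutely convergent integrals over the whole `ℝⁿ` of rational functions, `Wp n` the
set of such integrals of positive rational functions, `Rs n` the set of convergent integrals of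
`1 / (A² + B²)`, `A` and `B` polynomials without common real zero.

* `W n = π (V n - V n)` and `Wp n = π (V n ∖ {0}) = W n ∩ (0, ∞)`.
* So `x` is a period, in the form of the frozen statement S17403, if and only if `π x` is in some `W n`;
  S17403 holds if and only if `1`, `π e`, `π γ` are in no `Wp n`; `1/π` is a period if and only if `1` is
  in some `Rs n`; and `1/π` is not a period if and only if all nonzero elements of all sets `W n` are
  transcendental.
* Quadratic inequalities.  Let `A(x)` be a square matrix whose entries are `0`, `1`, `-1`, `x_k`, `-x_k`,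
  at most three of them not zero in every row, `det A ≠ 0`, and
  `S_A = {(x, y) : |∑_j a_ij(x) y_j| ≤ 1 for all i}` (`body A`).  `Sv v`: `v` is a finite volume of such a
  set.  Every such `v` is `π` times a positive period; for every positive period `x` some positive
  rational multiple of `π² x` is such a volume; and `1/π` is a period if and only if some finite volume
  `S_A` is rational, if and only if some is algebraic.
* `1/π` is none of the convergent integrals over `ℝⁿ` of `P / (q_1^(m_1) ... q_n^(m_n))`, `q` a mixed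
  tower, all over the real algebraic numbers: they are `a π^e` with `a` algebraic and `e ≥ 1`.
-/

set_option autoImplicit false

open MeasureTheory MvPolynomial Real

namespace Pool.Agent.Results.MP_725b61_nt.PencilBodies

open Pool.Agent.PWD.T
open Pool.Agent.PCB (Sv)

theorem result :
    -- integrals over the whole space are `π` times differences of volumes
    (∀ (n : ℕ) (v : ℝ), 1 ≤ n →
      (W n v ↔ ∃ a b : ℝ, V n a ∧ V n b ∧ v = π * (a - b)) ∧
      (Wp n v ↔ ∃ a : ℝ, V n a ∧ 0 < a ∧ v = π * a) ∧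
      (Wp n v ↔ W n v ∧ 0 < v)) ∧
    -- periods, and the question, in these terms
    (∀ x : ℝ, IsPeriod x ↔ ∃ n, 1 ≤ n ∧ W n (π * x)) ∧
    ((∀ x ∈ ({exp 1, 1 / π, eulerMascheroniConstant} : Set ℝ), ¬ IsPeriod x) ↔
      ∀ n : ℕ, 1 ≤ n → ¬ Wp n 1 ∧ ¬ Wp n (π * exp 1) ∧ ¬ Wp n (π * eulerMascheroniConstant)) ∧
    (IsPeriod (1 / π) ↔ ∃ n, 1 ≤ n ∧ Rs n 1) ∧
    (¬ IsPeriod (1 / π) ↔
      ∀ (n : ℕ) (v : ℝ), 1 ≤ n → W n v → v ≠ 0 → Transcendental ℚ v) ∧
    -- quadratic inequalities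
    (∀ v : ℝ, Sv v → ∃ a : ℝ, 0 < a ∧ IsPeriod a ∧ v = π * a) ∧
    (∀ x : ℝ, 0 < x → IsPeriod x → ∃ q : ℚ, 0 < q ∧ Sv (q * (π ^ 2 * x))) ∧
    (IsPeriod (1 / π) ↔ ∃ q : ℚ, Sv q) ∧
    (IsPeriod (1 / π) ↔ ∃ v : ℝ, Sv v ∧ IsAlgebraic ℚ v) ∧
    -- the denominators given by mixed towers
    (∀ (n : ℕ) (I : Set (Fin n)) (q : Fin n → (Fin n → ℝ) → ℝ) (P : (Fin n → ℝ) → ℝ)
      (m : Fin n → ℕ) (v : ℝ), 1 ≤ n → MixTower I q → IsPoly Set.univ P → Val (quot P q m) v →
      (∃ (a : ℝ) (e : ℕ), IsAlgebraic ℚ a ∧ v = a * π ^ (e + 1)) ∧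
      (v ≠ 0 → Transcendental ℚ v) ∧ v ≠ 1 / π) := by
  obtain ⟨u, ⟨r1, -, r3, -⟩, w, -, ⟨p1, -, p3⟩, -⟩ := Pool.Agent.PWD.fin_T Pool.Agent.PWD.thm_VS
  obtain ⟨s1, s2, s3, s4⟩ := Pool.Agent.PCB.main_sv
  refine ⟨w, p1, p3, r1, r3, s1, s2, s3, s4, fun n I q P m v hn hq hP hv => ?_⟩
  obtain ⟨⟨a, e, ha, hae⟩, ht⟩ := u n I q P m v hn hq hP hv
  refine ⟨⟨a, e, ha, hae⟩, ht, fun h => ?_⟩
  have hpi : (π : ℝ) ≠ 0 := Real.pi_ne_zero
  have h1 : a * π ^ (e + 2) = 1 := by
    have h2 : a * π ^ (e + 1) = 1 / π := hae ▸ h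
    have h3 : a * π ^ (e + 1) * π = 1 := by
      rw [h2]
      field_simp
    rw [← h3]
    ring
  have ha0 : a ≠ 0 := by
    rintro rfl
    simp at h1
  have h4 : (π : ℝ) ^ (e + 2) = a⁻¹ := by
    field_simp
    rw [mul_comm]
    exact h1
  have h5 : IsAlgebraic ℚ ((π : ℝ) ^ (e + 2)) := by
    rw [h4]
    exact ha.inv
  exact Pool.Agent.Helper23.PiT.transcendental_pi (IsAlgebraic.of_pow (Nat.succ_pos (e + 1)) h5)

end Pool.Agent.Results.MP_725b61_nt.PencilBodies
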