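import Pool.Agent.QP.AsmA
import Pool.Agent.QP.AsmB

/-!
# Quarter periods: classes of periods which contain `π` but not `1/π`

`K = RealAlg` is the field of real algebraic numbers, `N = 4` or `N = 6`, and `w = per N`,
`h = qer N` are `B(1/4, 1/2)`, `B(3/4, 1/2)` for `N = 4` and `B(1/3, 1/2)`, `B(2/3, 1/2)` for `N = 6`
(`B` is the beta function; `π` is an algebraic multiple of `w h`).  Up to algebraic factors `w` and `h`
are the periods of the first and of the second kind of the elliptic curve `y^2 = x^3 - x`,
`y^2 = x^3 - 1`.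

The class `Iter N n i j` (`Pool/Agent/QP/DefsB.lean`) consists of functions on `ℝ^n` whose integral can
be computed by successive one-dimensional integrations.  The fibres are
`|t - a|^p |t - b|^q P(t)` on an interval `(a, b)` or on a half-line which begins at `a`, and
`((t - a)^2 + c^2)^p P(t)` on the line, where `p`, `q` are in `(1/N) ℤ` and not integers, or they are of
one of the types of `Pool/Agent/ITR/Defs.lean` (rational, twisted, arc, odd, or with an algebraic
primitive).  The data of the fibres (`a`, `b`, `c`, the polynomials `P`, the primitives) are arbitrary real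
numbers and functions.  Decompositions into sums, semialgebraic changes of variables and differences
`g - |det φ'| g(φ)` are allowed.  The indices `i`, `j` bound the exponents of the powers of `w`, `h` which
have been collected.

The integral of a semialgebraic function of the class is a polynomial in `w` and `h` over `K`, of degree
at most `n + i` in `w` and `n + j` in `h`.  The `K`-algebra generated by these integrals is `K[w, h]`, a
polynomial ring in two variables (theorem of Chudnovsky, proved in `Pool/Agent/QP`); its units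
are the nonzero elements of `K`, so `1/π`, `1/w`, `1/h` are not in it.  An explicit family in the class,
in every dimension: `P / (q_1^(m_1) ... q_n^(m_n))^(1/N)`, where `P` is a polynomial over `K` and
`q_1, ..., q_n` is a quadratic tower: `q_k` is a polynomial in `x_1, ..., x_k` over `K`, and
`M q_k = (M x_k + b)^2 + s`, where `M` and `s` are products of positive constants and of earlier `q_i`,
and `b` is a polynomial in the earlier variables.  The polynomials `det(1 + Yᵀ Y)` for the upper left
blocks `Y` of the generic real `p × q` matrix form such a tower.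
-/

set_option autoImplicit false

open MeasureTheory

namespace Pool.Agent.Results.MP_725b61_nt.QuarterPeriods

open Pool.Agent.ITR Pool.Agent.Helper23.PeriodDefs
open Pool.Agent.QP (per qer Iter quarterRing)

theorem result : ∀ N : ℕ, N = 4 ∨ N = 6 →
    (∀ (n i j : ℕ) (f : (Fin n → ℝ) → ℝ), SemialgebraicFun f → Iter N n i j f →
      ∃ F : MvPolynomial (Fin 2) RealAlg, F.degreeOf 0 ≤ n + i ∧ F.degreeOf 1 ≤ n + j ∧
        ∫ x, f x = MvPolynomial.aeval ![per N, qer N] F) ∧
    (∀ (n l : ℕ) (f : (Fin n → ℝ) → ℝ), SemialgebraicFun f → Iter N n 0 0 f →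
      ∫ x, f x = Real.pi ^ l → l ≤ n) ∧
    AlgebraicIndependent RealAlg ![per N, qer N] ∧
    quarterRing N = Algebra.adjoin RealAlg {per N, qer N} ∧
    (∀ r ∈ quarterRing N, r ≠ 0 → r⁻¹ ∈ quarterRing N → ∃ a : RealAlg, r = a) ∧
    (Real.pi ∈ quarterRing N ∧ (Real.pi)⁻¹ ∉ quarterRing N ∧ (per N)⁻¹ ∉ quarterRing N ∧
      (qer N)⁻¹ ∉ quarterRing N) ∧
    (∀ (n : ℕ) (q : Fin n → MultiPoly n), QuadTower q → ∀ (P : MultiPoly n) (m : Fin n → ℕ),
      Integrable (Pool.Agent.QP.towerFun N q P m) →
      SemialgebraicFun (Pool.Agent.QP.towerFun N q P m) ∧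
      Iter N n 0 0 (Pool.Agent.QP.towerFun N q P m) ∧
      ∃ (a : RealAlg) (i j : ℕ), i ≤ n ∧ j ≤ n ∧
        ∫ x, Pool.Agent.QP.towerFun N q P m x = a * (per N ^ i * qer N ^ j)) ∧
    (∀ p q : ℕ, QuadTower (cornerPoly p q)) := by
  intro N hN
  obtain ⟨h1, h2, h3, h4, h5, h6⟩ := Pool.Agent.QP.asm_FNQ Pool.Agent.QP.asm_CHU N hN
  obtain ⟨⟨a, -, ha⟩, -, -⟩ := Pool.Agent.QP.asm_PIQ N hN
  have hpi : Real.pi ∈ quarterRing N := by
    rw [h3, ha]
    have hw : per N ∈ Algebra.adjoin RealAlg ({per N, qer N} : Set ℝ) :=
      Algebra.subset_adjoin (Set.mem_insert _ _)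
    have hh : qer N ∈ Algebra.adjoin RealAlg ({per N, qer N} : Set ℝ) :=
      Algebra.subset_adjoin (Set.mem_insert_of_mem _ (Set.mem_singleton _))
    exact mul_mem (Subalgebra.algebraMap_mem _ a) (mul_mem hw hh)
  exact ⟨h1, h6, h2, h3, h4, ⟨hpi, h5⟩, Pool.Agent.QP.asm_QTQ N hN, corner_tower⟩

end Pool.Agent.Results.MP_725b61_nt.QuarterPeriods
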