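import Pool.Agent.TPER.Asm

/-!
# Toric periods

Definitions (`Pool/Agent/TPER/Defs.lean`):
* `orthant n` is the set of all `x` in `ℝ ^ n` with positive coordinates;
* `mono a x = ∏ l, x l ^ a l` for a vector `a` of rational exponents;
* `toricIntegrand c a k z m x` is the function
  `(∑ i, c i * mono (a i) x * ∏ l, log (x l) ^ k i l) / ∏ j, (1 - z j * mono (m j) x)`;
* `IsToricPeriodOf n d v`: `v` is the integral over `orthant n` of an integrable toric integrand with
  algebraic `c i`, roots of unity `z j` and `∑ l, k i l ≤ d` for all `i`;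
* `IsToricPeriod v`: the same for some `n` and `d`.
-/

set_option autoImplicit false

namespace Pool.Agent.Results.MP_725b61_nt.ToricPeriods

open TPER

/-- A toric period in dimension `n` with logarithmic degree at most `d` is a polynomial in `π` of
degree at most `n + d` with algebraic coefficients; the algebra over the field of algebraic numbers
generated by all toric periods is generated by `π` and does not contain `1 / π`. -/
theorem result :
    (∀ (n d : ℕ) (v : ℂ), IsToricPeriodOf n d v →
      ∃ p : Polynomial ℂ, (∀ i, IsAlgebraic ℚ (p.coeff i)) ∧ p.natDegree ≤ n + d ∧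
        v = p.eval (Real.pi : ℂ)) ∧
    Algebra.adjoin (algebraicClosure ℚ ℂ) {v : ℂ | IsToricPeriod v} =
      Algebra.adjoin (algebraicClosure ℚ ℂ) {(Real.pi : ℂ)} ∧
    ((Real.pi : ℂ))⁻¹ ∉ Algebra.adjoin (algebraicClosure ℚ ℂ) {v : ℂ | IsToricPeriod v} :=
  main

end Pool.Agent.Results.MP_725b61_nt.ToricPeriods
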